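import Mathlib
import Pool.Agent.Q67.DJ.Main

set_option autoImplicit false

namespace Pool.Agent.Results.MP_e6b6d5_an.GenericNotDense

open Q67.DJ

/-- There is a system on a compact metric space which is disjoint from all minimal systems, and
such that there is no dense `G_δ` set of points whose orbit closures have dense minimal points. -/
theorem result : ∃ (X : Type) (_ : MetricSpace X) (_ : CompactSpace X) (T : X → X),
    Continuous T ∧ Function.Surjective T ∧ DisjointFromAllMinimal T ∧
      ¬ ∃ Ω : Set X, IsGδ Ω ∧ Dense Ω ∧
        ∀ x ∈ Ω, HasDenseMinimalPoints T (OrbitClosure T x) := by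
  letI : MetricSpace X := TopologicalSpace.metrizableSpaceMetric X
  exact ⟨X, inferInstance, inferInstance, T, T_cont, T_surj, T_disjoint, T_generic⟩

end Pool.Agent.Results.MP_e6b6d5_an.GenericNotDense
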